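import Pool.Agent.helper87.TR.Spec

/-!
# C1: the first restriction
-/

namespace Pool.Agent.helper87.TR

open Polynomial Finset Module FP97
open Pool.Agent.helper97.FP

/-- the product of the `X - a k` -/
noncomputable def C1_tau {ι : Type} (a : ι → ℂ) (K : Finset ι) : ℂ[X] := ∏ k ∈ K, (X - C (a k))

lemma C1_tau_monic {ι : Type} (a : ι → ℂ) (K : Finset ι) : (C1_tau a K).Monic :=
  monic_prod_of_monic _ _ fun _ _ => monic_X_sub_C _

lemma C1_tau_deg {ι : Type} (a : ι → ℂ) (K : Finset ι) : (C1_tau a K).natDegree = K.card := by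
  unfold C1_tau
  rw [natDegree_prod_of_monic _ _ fun _ _ => monic_X_sub_C _]
  simp

lemma C1_tau_mem {ι : Type} (a : ι → ℂ) (K : Finset ι) : C1_tau a K ∈ degreeLT ℂ (K.card + 1) := by
  rw [mem_degreeLT, degree_eq_natDegree (C1_tau_monic a K).ne_zero, C1_tau_deg]
  exact_mod_cast Nat.lt_succ_self _

lemma C1_tau_eval {ι : Type} (a : ι → ℂ) (K : Finset ι) {k : ι} (hk : k ∈ K) :
    (C1_tau a K).eval (a k) = 0 := by
  unfold C1_tau
  rw [eval_prod]
  refine Finset.prod_eq_zero hk ?_
  simp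

/-- the element `τ e_0` -/
lemma C1_mem {ι : Type} (a : ι → ℂ) (c : ι → Fin 3 → ℂ) (K : Finset ι) (δ : ℕ) :
    (fun q : Fin 3 => if q = 0 then C1_tau a K else 0) ∈ NN a c K δ (K.card + 1) := by
  refine ⟨fun q => ?_, fun k hk => ⟨0, fun q => ?_⟩⟩
  · by_cases hq : q = 0
    · subst hq
      simp only [if_true]
      have : K.card + 1 - ((0 : Fin 3) : ℕ) * δ = K.card + 1 := by simp
      rw [this]
      exact C1_tau_mem a K
    · simp only [hq, if_false]
      exact zero_mem _
  · by_cases hq : q = 0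
    · subst hq
      simp only [if_true, zero_mul]
      exact C1_tau_eval a K hk
    · simp only [hq, if_false, eval_zero, zero_mul]

theorem C1 (h : T2_stmt) : C1_stmt := by
  intro ι a c K δ ha hc F g hG h01 h12
  by_contra hcon
  push Not at hcon
  obtain ⟨h1, h0⟩ := hcon
  obtain ⟨ρ, hρ, hx⟩ := (h ι a c K δ ha F g hG).1 (K.card + 1) _ (C1_mem a c K δ)
  have hρ1 : ρ 1 = 0 := by
    refine eq_zero_of_mem_zero ?_
    have h2 := hρ 1
    rwa [show K.card + 1 - g 1 = 0 by omega] at h2
  have hρ2 : ρ 2 = 0 := by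
    refine eq_zero_of_mem_zero ?_
    have h2 := hρ 2
    rwa [show K.card + 1 - g 2 = 0 by omega] at h2
  have hx' : ∀ q : Fin 3, (if q = 0 then C1_tau a K else 0) = ρ 0 * F 0 q := by
    intro q
    have h3 := hx q
    rw [hρ1, hρ2, zero_mul, zero_mul, add_zero, add_zero] at h3
    exact h3
  have hτ : C1_tau a K = ρ 0 * F 0 0 := by
    have h3 := hx' 0
    rwa [if_pos rfl] at h3
  have hτ0 : C1_tau a K ≠ 0 := (C1_tau_monic a K).ne_zero
  have hρ0 : ρ 0 ≠ 0 := by
    intro h4
    rw [h4, zero_mul] at hτ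
    exact hτ0 hτ
  have hf0 : F 0 0 ≠ 0 := by
    intro h4
    rw [h4, mul_zero] at hτ
    exact hτ0 hτ
  have hF1 : F 0 1 = 0 := by
    have h3 := hx' 1
    rw [if_neg (by decide)] at h3
    exact (mul_eq_zero.1 h3.symm).resolve_left hρ0
  have hF2 : F 0 2 = 0 := by
    have h3 := hx' 2
    rw [if_neg (by decide)] at h3
    exact (mul_eq_zero.1 h3.symm).resolve_left hρ0
  have hmem := hG.mem 0
  have hroot : ∀ k ∈ K, (F 0 0).eval (a k) = 0 := by
    intro k hk
    obtain ⟨s, hs⟩ := hmem.2 k hk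
    by_contra h5
    have hs0 : s ≠ 0 := by
      intro h6
      rw [hs 0, h6, zero_mul] at h5
      exact h5 rfl
    have e1 : c k 1 = 0 := by
      have h7 := hs 1
      rw [hF1, eval_zero] at h7
      exact (mul_eq_zero.1 h7.symm).resolve_left hs0
    have e2 : c k 2 = 0 := by
      have h7 := hs 2
      rw [hF2, eval_zero] at h7
      exact (mul_eq_zero.1 h7.symm).resolve_left hs0
    refine hc k hk ?_
    rw [e1, e2]
    ring
  have hdeg : (F 0 0).natDegree ≤ g 0 := by
    have h8 := hmem.1 0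
    have h9 := natDegree_le_of_mem h8
    simpa using h9
  have hcard : K.card ≤ (F 0 0).natDegree := by
    rw [← Finset.card_image_of_injOn ha]
    refine card_le_degree_of_subset_roots ?_
    intro x hx
    rw [Finset.mem_val, Finset.mem_image] at hx
    obtain ⟨k, hk, rfl⟩ := hx
    rw [mem_roots hf0]
    exact hroot k hk
  omega

end Pool.Agent.helper87.TR
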